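import Pool.Agent.Helper3.JK.FinalK

set_option autoImplicit false

/-!
Jigsaw deformations of the tiles of the square, hexagonal, triangular and rhombille tilings have
isohedral number at most two.
-/

namespace Pool.Agent.Results.MP_97736f_co.EdgeTransitiveJigsaw

open Set Pool.H3JG

/-- `T` has a disk-shaped isohedral repeating unit made of `m` copies: `m` congruent copies of `T`
with pairwise disjoint interiors whose union `P` is a closed disk and is the prototile of a tiling
of the plane by congruent copies of `P` the symmetry group of which is transitive on the copies of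
`P`. -/
def DiskUnit (T : Set E) (m : ℕ) : Prop :=
  ∃ a : Fin m → (E ≃ᵢ E),
    Pairwise (fun i j => Disjoint (interior (a i '' T)) (interior (a j '' T))) ∧
    Nonempty (↥(⋃ i, a i '' T) ≃ₜ ↥(Metric.closedBall (0 : E) 1)) ∧
    ∃ 𝒯 : Set (Set E),
      (∀ A ∈ 𝒯, ∃ f : E ≃ᵢ E, A = f '' (⋃ i, a i '' T)) ∧
      ⋃₀ 𝒯 = univ ∧
      𝒯.Pairwise (fun A B => Disjoint (interior A) (interior B)) ∧
      ∀ A ∈ 𝒯, ∀ B ∈ 𝒯, ∃ f : E ≃ᵢ E, Set.image (fun C : Set E => f '' C) 𝒯 = 𝒯 ∧ f '' A = B

/-- Let `P` be the set of centres of the tiles of one of the four tile-transitive and edge-transitive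
tilings by squares, regular hexagons, equilateral triangles and rhombi with angle 60 degrees (the
rhombille tiling), `0 ∈ P`, and let `T` be a jigsaw deformation of the tile around
`0`. If the copies `u + g u (T)`, `u ∈ P`, tile the plane, where `g u` is a linear isometry such that
`x ↦ u + g u x` maps `P` into itself, then `T` is a closed disk and one or two copies of `T` (one copy
for the triangles) form a disk-shaped isohedral repeating unit. -/
theorem result (P : Set E)
    (hP : P = SquareLattice ∨ P = HexagonalLattice ∨ P = TriangleCentres ∨ P = RhombusCentres)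
    (T : Set E) (hT : IsJigsaw P T)
    (g : E → E ≃ₗᵢ[ℝ] E) (hg : ∀ u ∈ P, ∀ w ∈ P, u + g u w ∈ P)
    (hcov : (⋃ u ∈ P, (fun x => u + g u x) '' T) = univ)
    (hdis : ∀ u ∈ P, ∀ w ∈ P, u ≠ w →
      Disjoint (interior ((fun x => u + g u x) '' T)) (interior ((fun x => w + g w x) '' T))) :
    Nonempty (↥T ≃ₜ ↥(Metric.closedBall (0 : E) 1)) ∧
      (DiskUnit T 1 ∨ (DiskUnit T 2 ∧ P ≠ TriangleCentres)) := by
  obtain ⟨h1, m, hm1, hm2, hm3, a, ha, h2⟩ := finalR4 P hP hT g hg hcov hdis
  have hd : DiskUnit T m := ⟨a, ha.1, h2, ha.2⟩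
  refine ⟨h1, ?_⟩
  have hm : m = 1 ∨ m = 2 := by omega
  rcases hm with rfl | rfl
  · exact Or.inl hd
  · exact Or.inr ⟨hd, fun h => by have := hm3 h; omega⟩

end Pool.Agent.Results.MP_97736f_co.EdgeTransitiveJigsaw
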