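import Pool.Agent.Helper3.JK.FinalK

set_option autoImplicit false

/-!
Tiles matched only with their nearest neighbours in the positions of the square, hexagonal,
triangular or rhombille tiling have an isohedral repeating unit of at most two copies.
-/

namespace Pool.Agent.Results.MP_97736f_co.EdgeTransitiveTiles

open Set Pool.H3JG

/-- Let `P` be the set of centres of the tiles of one of the four tile-transitive and edge-transitive
tilings by squares, regular hexagons, equilateral triangles and rhombi with angle 60 degrees (the
rhombille tiling), `0 ∈ P`, and let `T` be a set with `closure (interior T) = T` and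
connected interior such that each point of `T` has at most one point of `P` which is nearer to it than
`0`. If the copies `u + g u (T)`, `u ∈ P`, tile the plane, where `g u` is a linear isometry such that
`x ↦ u + g u x` maps `P` into itself, then `T` has an isohedral repeating unit made of one or two
copies (one copy for the triangles). -/
theorem result (P : Set E)
    (hP : P = SquareLattice ∨ P = HexagonalLattice ∨ P = TriangleCentres ∨ P = RhombusCentres)
    (T : Set E) (hT : closure (interior T) = T) (hc : IsPreconnected (interior T))
    (hn : ∀ p ∈ T, ∀ u ∈ P, ∀ w ∈ P, ‖p - u‖ < ‖p‖ → ‖p - w‖ < ‖p‖ → u = w)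
    (g : E → E ≃ₗᵢ[ℝ] E) (hg : ∀ u ∈ P, ∀ w ∈ P, u + g u w ∈ P)
    (hcov : (⋃ u ∈ P, (fun x => u + g u x) '' T) = univ)
    (hdis : ∀ u ∈ P, ∀ w ∈ P, u ≠ w →
      Disjoint (interior ((fun x => u + g u x) '' T)) (interior ((fun x => w + g w x) '' T))) :
    RepUnit T 1 ∨ (RepUnit T 2 ∧ P ≠ TriangleCentres) := by
  obtain ⟨m, hm1, hm2, hm3, a, ha⟩ := finalG4 P hP hT hc hn g hg hcov hdis
  have hd : RepUnit T m := ⟨a, ha.1, ha.2⟩
  have hm : m = 1 ∨ m = 2 := by omega
  rcases hm with rfl | rfl
  · exact Or.inl hd
  · exact Or.inr ⟨hd, fun h => by have := hm3 h; omega⟩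

end Pool.Agent.Results.MP_97736f_co.EdgeTransitiveTiles
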