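import Pool.Agent.Helper3.JL.Final

set_option autoImplicit false

/-!
A tile which meets only nearest neighbours and tiles the plane by translations and half turns, one
copy for each point of a lattice, is isohedral.
-/

namespace Pool.Agent.Results.MP_97736f_co.EveryLattice

open Set Pool.H3JL

/-- Each point of `T` has at most one point of `Λ` which is nearer to it than `0`. -/
def NearestOnly (Λ T : Set E) : Prop :=
  ∀ p ∈ T, ∀ x ∈ Λ, ∀ y ∈ Λ, ‖p - x‖ < ‖p‖ → ‖p - y‖ < ‖p‖ → x = y

/-- The copies `u + g u (T)`, `u ∈ Λ`, cover the plane and have pairwise disjoint interiors. -/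
def TilesWith (Λ T : Set E) (g : E → E ≃ₗᵢ[ℝ] E) : Prop :=
  (⋃ u ∈ Λ, (fun x => u + g u x) '' T) = univ ∧
  ∀ u ∈ Λ, ∀ u' ∈ Λ, u ≠ u' →
    Disjoint (interior ((fun x => u + g u x) '' T)) (interior ((fun x => u' + g u' x) '' T))

/-- `T` is the prototile of an isohedral tiling: a family of congruent copies of `T` covers the
plane, has pairwise disjoint interiors, and the isometries which preserve the family act
transitively on it. -/
def Isohedral (T : Set E) : Prop :=
  ∃ 𝒯 : Set (Set E),
    (∀ A ∈ 𝒯, ∃ f : E ≃ᵢ E, A = f '' T) ∧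
    ⋃₀ 𝒯 = univ ∧
    𝒯.Pairwise (fun A B => Disjoint (interior A) (interior B)) ∧
    ∀ A ∈ 𝒯, ∀ B ∈ 𝒯, ∃ f : E ≃ᵢ E, Set.image (fun C : Set E => f '' C) 𝒯 = 𝒯 ∧ f '' A = B

/-- Let `Λ = {m v + n w : m, n ∈ ℤ}` be any lattice of the plane and let `T` be a set with
`closure (interior T) = T` such that each point of `T` has at most one point of `Λ` which is nearer
to it than `0`. If the copies `u + g u (T)`, `u ∈ Λ`, tile the plane, where each `g u` is the
identity or `x ↦ -x`, then `T` is the prototile of an isohedral tiling. -/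
theorem result (v w : E) (hvw : LinearIndependent ℝ ![v, w]) (T : Set E)
    (hT : closure (interior T) = T) (hn : NearestOnly (Lattice v w) T)
    (g : E → E ≃ₗᵢ[ℝ] E)
    (hg : ∀ u ∈ Lattice v w, (∀ x, g u x = x) ∨ (∀ x, g u x = -x))
    (ht : TilesWith (Lattice v w) T g) : Isohedral T :=
  isohedral_lattice v w hvw T hT hn g hg ht.1 ht.2

end Pool.Agent.Results.MP_97736f_co.EveryLattice
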